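import Mathlib

/-!
# Semisimplicity from a normal subgroup and another subgroup

If `N` is a normal subgroup and `H` a subgroup of `Γ` such that `N H` has finite index, and if a
finite-dimensional representation of `Γ` in characteristic zero is semisimple on `N` and on `H`, then
it is semisimple.
-/

set_option autoImplicit false

open Module

namespace Pool.Agent.Y138.GS

variable {K V Γ : Type*} [Field K] [AddCommGroup V] [Module K V] [Group Γ]

/-- every subspace which is stable under `H` has a complement which is stable under `H` -/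
def SemisimpleOn (ρ : Γ →* End K V) (H : Subgroup Γ) : Prop :=
  ∀ W : Submodule K V, (∀ g ∈ H, ∀ w ∈ W, ρ g w ∈ W) →
    ∃ W' : Submodule K V, (∀ g ∈ H, ∀ w ∈ W', ρ g w ∈ W') ∧ IsCompl W W'

/-- an equivariant projection gives a stable complement -/
theorem compl_of_proj (ρ : Γ →* End K V) (H : Subgroup Γ) (W : Submodule K V) (r : End K V) (d : K)
    (hd : d ≠ 0) (hr : ∀ v, r v ∈ W) (hrW : ∀ w ∈ W, r w = d • w)
    (hc : ∀ g ∈ H, ρ g * r = r * ρ g) :
    ∃ W' : Submodule K V, (∀ g ∈ H, ∀ w ∈ W', ρ g w ∈ W') ∧ IsCompl W W' := by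
  refine ⟨LinearMap.ker r, fun g hg w hw => ?_, ?_⟩
  · rw [LinearMap.mem_ker] at hw ⊢
    have h1 : r (ρ g w) = ρ g (r w) := (LinearMap.congr_fun (hc g hg) w).symm
    rw [h1, hw, map_zero]
  · constructor
    · rw [disjoint_iff, eq_bot_iff]
      rintro w ⟨hw, hw'⟩
      have h1 : r w = 0 := LinearMap.mem_ker.1 hw'
      rw [hrW w hw] at h1
      exact (Submodule.mem_bot _).2 ((smul_eq_zero.1 h1).resolve_left hd)
    · rw [codisjoint_iff, eq_top_iff]
      intro v _
      refine Submodule.mem_sup.2 ⟨d⁻¹ • r v, W.smul_mem _ (hr v), v - d⁻¹ • r v, ?_, by abel⟩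
      rw [LinearMap.mem_ker, map_sub, map_smul, hrW _ (hr v), smul_smul, inv_mul_cancel₀ hd,
        one_smul, sub_self]

/-- a stable complement gives an equivariant projection -/
theorem proj_of_semisimple (ρ : Γ →* End K V) (H : Subgroup Γ) (h : SemisimpleOn ρ H)
    (W : Submodule K V) (hW : ∀ g ∈ H, ∀ w ∈ W, ρ g w ∈ W) :
    ∃ r : End K V, (∀ v, r v ∈ W) ∧ (∀ w ∈ W, r w = w) ∧ ∀ g ∈ H, ρ g * r = r * ρ g := by
  obtain ⟨W', hW', hc⟩ := h W hW
  let r : End K V := W.subtype ∘ₗ W.projectionOnto W' hc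
  have hrW : ∀ w ∈ W, r w = w := by
    intro w hw
    exact congrArg Subtype.val (Submodule.projectionOnto_apply_left hc ⟨w, hw⟩)
  have hrW' : ∀ w ∈ W', r w = 0 := by
    intro w hw
    exact congrArg Subtype.val (Submodule.projectionOnto_apply_right hc ⟨w, hw⟩)
  refine ⟨r, fun v => (W.projectionOnto W' hc v).2, hrW, fun g hg => ?_⟩
  refine LinearMap.ext fun v => ?_
  obtain ⟨w, hw, w', hw', rfl⟩ := Submodule.mem_sup.1
    (by rw [hc.sup_eq_top]; exact Submodule.mem_top : v ∈ W ⊔ W')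
  change ρ g (r (w + w')) = r (ρ g (w + w'))
  rw [map_add, map_add, map_add, map_add, hrW w hw, hrW' w' hw', hrW _ (hW g hg w hw),
    hrW' _ (hW' g hg w' hw'), map_zero]

variable [FiniteDimensional K V]

/-- the trace form is nondegenerate on the commutant of a semisimple representation -/
theorem commutant_nondeg [CharZero K] (ρ : Γ →* End K V) (N : Subgroup Γ) (h : SemisimpleOn ρ N)
    (c : End K V) (hc : ∀ g ∈ N, ρ g * c = c * ρ g)
    (h0 : ∀ c' : End K V, (∀ g ∈ N, ρ g * c' = c' * ρ g) → LinearMap.trace K V (c * c') = 0) :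
    c = 0 := by
  have hcv : ∀ g ∈ N, ∀ v, c (ρ g v) = ρ g (c v) := fun g hg v =>
    (LinearMap.congr_fun (hc g hg) v).symm
  obtain ⟨K', hK', hcK⟩ := h (LinearMap.ker c) (fun g hg w hw => by
    rw [LinearMap.mem_ker] at hw ⊢
    rw [hcv g hg, hw, map_zero])
  obtain ⟨I', hI', hcI⟩ := h (LinearMap.range c) (by
    rintro g hg _ ⟨v, rfl⟩
    exact ⟨ρ g v, hcv g hg v⟩)
  -- `c` is injective on `K'`
  have hinj : ∀ x ∈ K', c x = 0 → x = 0 := by
    intro x hx hx0
    have h1 : x ∈ LinearMap.ker c ⊓ K' := ⟨LinearMap.mem_ker.2 hx0, hx⟩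
    rw [hcK.inf_eq_bot] at h1
    exact (Submodule.mem_bot _).1 h1
  have hinj' : ∀ x ∈ K', ∀ y ∈ K', c x = c y → x = y := by
    intro x hx y hy hxy
    have h1 := hinj (x - y) (K'.sub_mem hx hy) (by rw [map_sub, hxy, sub_self])
    exact sub_eq_zero.1 h1
  have hsurj : ∀ y ∈ LinearMap.range c, ∃ x ∈ K', c x = y := by
    rintro _ ⟨v, rfl⟩
    obtain ⟨w, hw, w', hw', rfl⟩ := Submodule.mem_sup.1
      (by rw [hcK.sup_eq_top]; exact Submodule.mem_top : v ∈ LinearMap.ker c ⊔ K')
    exact ⟨w', hw', by rw [map_add, LinearMap.mem_ker.1 hw, zero_add]⟩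
  let f : K' →ₗ[K] LinearMap.range c := c.rangeRestrict ∘ₗ K'.subtype
  have hf : Function.Bijective f := by
    constructor
    · intro x y hxy
      exact Subtype.ext (hinj' x x.2 y y.2 (congrArg Subtype.val hxy))
    · intro y
      obtain ⟨x, hx, hxy⟩ := hsurj y y.2
      exact ⟨⟨x, hx⟩, Subtype.ext hxy⟩
  let e := LinearEquiv.ofBijective f hf
  let π := (LinearMap.range c).projectionOnto I' hcI
  let c' : End K V := K'.subtype ∘ₗ e.symm.toLinearMap ∘ₗ π
  have hcc : ∀ v, c (c' v) = π v := by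
    intro v
    have h1 : e (e.symm (π v)) = π v := e.apply_symm_apply _
    exact congrArg Subtype.val h1
  have hπc : ∀ g ∈ N, ∀ v, (π (ρ g v) : V) = ρ g (π v) := by
    intro g hg v
    obtain ⟨w, hw, w', hw', rfl⟩ := Submodule.mem_sup.1
      (by rw [hcI.sup_eq_top]; exact Submodule.mem_top : v ∈ LinearMap.range c ⊔ I')
    have h1 : ∀ w ∈ LinearMap.range c, (π w : V) = w := fun w hw =>
      congrArg Subtype.val (Submodule.projectionOnto_apply_left hcI ⟨w, hw⟩)
    have h2 : ∀ w ∈ I', (π w : V) = 0 := fun w hw =>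
      congrArg Subtype.val (Submodule.projectionOnto_apply_right hcI ⟨w, hw⟩)
    have h3 : ρ g w ∈ LinearMap.range c := by
      obtain ⟨u, rfl⟩ := hw
      exact ⟨ρ g u, hcv g hg u⟩
    rw [map_add, map_add, map_add, Submodule.coe_add, Submodule.coe_add, h1 w hw, h2 w' hw',
      h1 _ h3, h2 _ (hI' g hg w' hw'), add_zero, add_zero]
  have hc'N : ∀ g ∈ N, ρ g * c' = c' * ρ g := by
    intro g hg
    refine LinearMap.ext fun v => ?_
    refine hinj' _ (hK' g hg _ (e.symm (π v)).2) _ (e.symm (π (ρ g v))).2 ?_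
    change c (ρ g (c' v)) = c (c' (ρ g v))
    rw [hcv g hg, hcc, hcc, hπc g hg]
  have h1 := h0 c' hc'N
  have h2 : LinearMap.IsProj (LinearMap.range c) (c * c') := by
    refine ⟨fun v => ⟨c' v, rfl⟩, fun v hv => ?_⟩
    change c (c' v) = v
    rw [hcc]
    exact congrArg Subtype.val (Submodule.projectionOnto_apply_left hcI ⟨v, hv⟩)
  rw [h2.trace] at h1
  have h3 : Module.finrank K (LinearMap.range c) = 0 := by exact_mod_cast h1
  have h4 := Submodule.finrank_eq_zero.1 h3
  exact LinearMap.range_eq_bot.1 h4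

/-- **Extensions.** A representation which is semisimple on a normal subgroup `N` and on a subgroup
`H` with `N H` of finite index is semisimple. -/
theorem semisimple_of_normal [CharZero K] (ρ : Γ →* End K V) (N : Subgroup Γ) (hN : N.Normal)
    (H : Subgroup Γ) (hfin : (N ⊔ H).FiniteIndex) (h1 : SemisimpleOn ρ N)
    (h2 : SemisimpleOn ρ H) : SemisimpleOn ρ ⊤ := by
  classical
  intro W hW
  have hWv : ∀ g, ∀ w ∈ W, ρ g w ∈ W := fun g w hw => hW g (Subgroup.mem_top g) w hw
  have hρi : ∀ g : Γ, ρ g⁻¹ * ρ g = 1 := fun g => by rw [← map_mul, inv_mul_cancel, map_one]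
  have hρi' : ∀ g : Γ, ρ g * ρ g⁻¹ = 1 := fun g => by rw [← map_mul, mul_inv_cancel, map_one]
  obtain ⟨e, heW, he1, heN⟩ := proj_of_semisimple ρ N h1 W (fun g _ => hWv g)
  obtain ⟨q, hqW, hq1, hqH⟩ := proj_of_semisimple ρ H h2 W (fun g _ => hWv g)
  -- the commutant
  let C : Submodule K (End K V) :=
    { carrier := {c | ∀ g ∈ N, ρ g * c = c * ρ g}
      add_mem' := fun {a b} ha hb g hg => by
        rw [mul_add, add_mul, ha g hg, hb g hg]
      zero_mem' := fun g _ => by rw [mul_zero, zero_mul]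
      smul_mem' := fun c a ha g hg => by
        rw [mul_smul_comm, smul_mul_assoc, ha g hg] }
  have hCmul : ∀ a ∈ C, ∀ b ∈ C, a * b ∈ C := by
    intro a ha b hb g hg
    rw [← mul_assoc, ha g hg, mul_assoc, hb g hg, mul_assoc]
  have hCconj : ∀ x : Γ, ∀ a ∈ C, ρ x * a * ρ x⁻¹ ∈ C := by
    intro x f hf g hg
    have h1 := hf (x⁻¹ * g * x) (by
      have := hN.conj_mem g hg x⁻¹
      rwa [inv_inv] at this)
    calc ρ g * (ρ x * f * ρ x⁻¹) = ρ (x * (x⁻¹ * g * x)) * f * ρ x⁻¹ := by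
          have : x * (x⁻¹ * g * x) = g * x := by group
          rw [this, map_mul]
          noncomm_ring
      _ = ρ x * (ρ (x⁻¹ * g * x) * f) * ρ x⁻¹ := by rw [map_mul]; noncomm_ring
      _ = ρ x * (f * ρ (x⁻¹ * g * x)) * ρ x⁻¹ := by rw [h1]
      _ = ρ x * f * (ρ (x⁻¹ * g * x) * ρ x⁻¹) := by noncomm_ring
      _ = ρ x * f * (ρ x⁻¹ * ρ g) := by
          rw [← map_mul, ← map_mul]
          have : x⁻¹ * g * x * x⁻¹ = x⁻¹ * g := by group
          rw [this]
      _ = _ := by noncomm_ring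
  -- the trace form
  let B : C →ₗ[K] Module.Dual K C :=
    LinearMap.mk₂ K (fun a b => LinearMap.trace K V ((a : End K V) * (b : End K V)))
      (fun a b c => by rw [Submodule.coe_add, add_mul, map_add])
      (fun c a b => by rw [Submodule.coe_smul, smul_mul_assoc, map_smul])
      (fun a b c => by rw [Submodule.coe_add, mul_add, map_add])
      (fun c a b => by rw [Submodule.coe_smul, mul_smul_comm, map_smul])
  have hBinj : Function.Injective B := by
    rw [injective_iff_map_eq_zero]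
    intro a ha
    apply Subtype.ext
    refine commutant_nondeg ρ N h1 a a.2 fun c' hc' => ?_
    exact LinearMap.congr_fun ha ⟨c', hc'⟩
  have hBsurj : Function.Surjective B :=
    (LinearMap.injective_iff_surjective_of_finrank_eq_finrank Subspace.dual_finrank_eq.symm).1 hBinj
  let φ : Module.Dual K C :=
    { toFun := fun c => LinearMap.trace K V (q * (c : End K V))
      map_add' := fun a b => by rw [Submodule.coe_add, mul_add, map_add]
      map_smul' := fun c a => by
        rw [Submodule.coe_smul, mul_smul_comm, map_smul, RingHom.id_apply] }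
  obtain ⟨⟨r, hrC⟩, hr⟩ := hBsurj φ
  have hrt : ∀ c ∈ C, LinearMap.trace K V (r * c) = LinearMap.trace K V (q * c) := fun c hc =>
    LinearMap.congr_fun hr ⟨c, hc⟩
  have huniq : ∀ a ∈ C, ∀ b ∈ C,
      (∀ c ∈ C, LinearMap.trace K V (a * c) = LinearMap.trace K V (b * c)) → a = b := by
    intro a ha b hb hab
    have h3 : (⟨a, ha⟩ : C) = ⟨b, hb⟩ := hBinj (LinearMap.ext fun c => hab c c.2)
    exact congrArg Subtype.val h3
  have heC : e ∈ C := heN
  have heq : e * q = q := LinearMap.ext fun v => he1 _ (hqW v)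
  have hqe : q * e = e := LinearMap.ext fun v => hq1 _ (heW v)
  have her : e * r = r := by
    apply huniq _ (hCmul _ heC _ hrC) _ hrC
    intro c hc
    rw [mul_assoc, LinearMap.trace_mul_comm, mul_assoc, hrt _ (hCmul _ hc _ heC), hrt _ hc,
      ← mul_assoc, LinearMap.trace_mul_comm, ← mul_assoc, heq]
  have hre : r * e = e := by
    apply huniq _ (hCmul _ hrC _ heC) _ heC
    intro c hc
    rw [mul_assoc, hrt _ (hCmul _ heC _ hc), ← mul_assoc, hqe]
  have hrW : ∀ v, r v ∈ W := by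
    intro v
    have h3 : e (r v) = r v := LinearMap.congr_fun her v
    rw [← h3]
    exact heW _
  have hr1 : ∀ w ∈ W, r w = w := by
    intro w hw
    have h3 : r (e w) = e w := LinearMap.congr_fun hre w
    rwa [he1 w hw] at h3
  have hrH : ∀ g ∈ H, ρ g * r = r * ρ g := by
    intro g hg
    have h3 : ρ g * r * ρ g⁻¹ = r := by
      apply huniq _ (hCconj g _ hrC) _ hrC
      intro c hc
      have h4 : ρ g⁻¹ * c * ρ g ∈ C := by
        have := hCconj g⁻¹ c hc
        rwa [inv_inv] at this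
      have h5 : ρ g * q * ρ g⁻¹ = q := by
        rw [hqH g hg, mul_assoc, hρi', mul_one]
      calc LinearMap.trace K V (ρ g * r * ρ g⁻¹ * c)
          = LinearMap.trace K V (ρ g * (r * (ρ g⁻¹ * c))) := by simp only [mul_assoc]
        _ = LinearMap.trace K V (r * (ρ g⁻¹ * c) * ρ g) := LinearMap.trace_mul_comm _ _ _
        _ = LinearMap.trace K V (r * (ρ g⁻¹ * c * ρ g)) := by simp only [mul_assoc]
        _ = LinearMap.trace K V (q * (ρ g⁻¹ * c * ρ g)) := hrt _ h4
        _ = LinearMap.trace K V (q * (ρ g⁻¹ * c) * ρ g) := by simp only [mul_assoc]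
        _ = LinearMap.trace K V (ρ g * (q * (ρ g⁻¹ * c))) := (LinearMap.trace_mul_comm _ _ _).symm
        _ = LinearMap.trace K V (ρ g * q * ρ g⁻¹ * c) := by simp only [mul_assoc]
        _ = LinearMap.trace K V (q * c) := by rw [h5]
        _ = LinearMap.trace K V (r * c) := (hrt _ hc).symm
    calc ρ g * r = ρ g * r * (ρ g⁻¹ * ρ g) := by rw [hρi, mul_one]
      _ = (ρ g * r * ρ g⁻¹) * ρ g := by simp only [mul_assoc]
      _ = r * ρ g := by rw [h3]
  -- the group of elements commuting with `r`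
  let G' : Subgroup Γ :=
    { carrier := {g | ρ g * r = r * ρ g}
      mul_mem' := by
        intro a b ha hb
        change ρ (a * b) * r = r * ρ (a * b)
        rw [map_mul, mul_assoc, hb, ← mul_assoc, ha, mul_assoc]
      one_mem' := by
        change ρ 1 * r = r * ρ 1
        rw [map_one, one_mul, mul_one]
      inv_mem' := by
        intro a ha
        change ρ a⁻¹ * r = r * ρ a⁻¹
        calc ρ a⁻¹ * r = ρ a⁻¹ * (r * ρ a) * ρ a⁻¹ := by
              rw [mul_assoc, mul_assoc, hρi', mul_one]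
          _ = ρ a⁻¹ * (ρ a * r) * ρ a⁻¹ := by rw [show ρ a * r = r * ρ a from ha]
          _ = r * ρ a⁻¹ := by rw [← mul_assoc, hρi, one_mul] }
  have hle : N ⊔ H ≤ G' := sup_le (fun g hg => hrC g hg) (fun g hg => hrH g hg)
  have hG'fin : G'.FiniteIndex := Subgroup.finiteIndex_of_le hle
  have hfinq : Finite (Γ ⧸ G') := Subgroup.finite_quotient_of_finiteIndex
  have := Fintype.ofFinite (Γ ⧸ G')
  let F : Γ ⧸ G' → End K V := Quotient.lift (fun x : Γ => ρ x * r * ρ x⁻¹) (by
    intro a b hab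
    have h3 : a⁻¹ * b ∈ G' := QuotientGroup.leftRel_apply.1 hab
    have h4 : ρ (a⁻¹ * b) * r = r * ρ (a⁻¹ * b) := h3
    have h5 : b = a * (a⁻¹ * b) := by group
    change ρ a * r * ρ a⁻¹ = ρ b * r * ρ b⁻¹
    have h6 : ρ b * r = ρ a * r * ρ (a⁻¹ * b) := by
      calc ρ b * r = ρ (a * (a⁻¹ * b)) * r := by rw [← h5]
        _ = ρ a * (ρ (a⁻¹ * b) * r) := by rw [map_mul, mul_assoc]
        _ = _ := by rw [h4, mul_assoc]
    rw [h6, mul_assoc (ρ a * r), ← map_mul]
    congr 2
    group)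
  have hF : ∀ x : Γ, F (x : Γ ⧸ G') = ρ x * r * ρ x⁻¹ := fun x => rfl
  let S : End K V := ∑ c : Γ ⧸ G', F c
  have hSg : ∀ g : Γ, ρ g * S * ρ g⁻¹ = S := by
    intro g
    have h3 : ∀ c : Γ ⧸ G', ρ g * F c * ρ g⁻¹ = F (g • c) := by
      intro c
      obtain ⟨x, rfl⟩ := QuotientGroup.mk_surjective c
      have h4 : g • (x : Γ ⧸ G') = ((g * x : Γ) : Γ ⧸ G') := rfl
      rw [h4, hF, hF, map_mul, mul_inv_rev, map_mul]
      simp only [mul_assoc]
    calc ρ g * S * ρ g⁻¹ = ∑ c : Γ ⧸ G', ρ g * F c * ρ g⁻¹ := by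
          rw [Finset.mul_sum, Finset.sum_mul]
      _ = ∑ c : Γ ⧸ G', F (g • c) := Finset.sum_congr rfl fun c _ => h3 c
      _ = S := Equiv.sum_comp (MulAction.toPerm g : Equiv.Perm (Γ ⧸ G')) F
  refine compl_of_proj ρ ⊤ W S (Fintype.card (Γ ⧸ G') : K) (by exact_mod_cast Fintype.card_ne_zero)
    ?_ ?_ ?_
  · intro v
    change (∑ c : Γ ⧸ G', F c) v ∈ W
    rw [LinearMap.sum_apply]
    refine W.sum_mem fun c _ => ?_
    obtain ⟨x, rfl⟩ := QuotientGroup.mk_surjective c
    rw [hF]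
    exact hWv x _ (hrW _)
  · intro w hw
    change (∑ c : Γ ⧸ G', F c) w = _
    rw [LinearMap.sum_apply]
    have h3 : ∀ c : Γ ⧸ G', F c w = w := by
      intro c
      obtain ⟨x, rfl⟩ := QuotientGroup.mk_surjective c
      rw [hF]
      change ρ x (r (ρ x⁻¹ w)) = w
      rw [hr1 _ (hWv _ w hw)]
      exact LinearMap.congr_fun (hρi' x) w
    simp_rw [h3]
    rw [Finset.sum_const, Finset.card_univ, Nat.cast_smul_eq_nsmul]
  · intro g _
    calc ρ g * S = ρ g * S * (ρ g⁻¹ * ρ g) := by rw [hρi, mul_one]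
      _ = (ρ g * S * ρ g⁻¹) * ρ g := by simp only [mul_assoc]
      _ = S * ρ g := by rw [hSg]

end Pool.Agent.Y138.GS
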