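import Pool.Agent.Y138.GS.Spec

/-!
# Specialization of semisimplicity: the three equivalent conditions
-/

set_option autoImplicit false

open Module Topology Filter

namespace Pool.Agent.Y138.GS

theorem sup_eq_top_mono {Γ : Type*} [Group Γ] {H U U' : Subgroup Γ} (h : U ≤ U')
    (hU : H ⊔ U = ⊤) : H ⊔ U' = ⊤ := by
  rw [eq_top_iff, ← hU]
  exact sup_le_sup_left h H

theorem finite_iInter {R Γ : Type*} [Finite R] [Group Γ] [TopologicalSpace Γ]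
    (U : R → Subgroup Γ) (hn : ∀ r, (U r).Normal) (ho : ∀ r, IsOpen (U r : Set Γ)) :
    ∃ U' : Subgroup Γ, U'.Normal ∧ IsOpen (U' : Set Γ) ∧ ∀ r, U' ≤ U r := by
  refine ⟨⨅ r, U r, Subgroup.normal_iInf_normal hn, ?_, fun r => iInf_le U r⟩
  rw [Subgroup.coe_iInf]
  exact isOpen_iInter_of_finite ho

/-- **Specialization of semisimplicity.** -/
theorem specialization {Γ P : Type*} [Group Γ] [TopologicalSpace Γ] [IsTopologicalGroup Γ]
    [CompactSpace Γ] [TotallyDisconnectedSpace Γ] (N : Subgroup Γ) (hN : N.Normal)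
    (D : P → Subgroup Γ) (hD : ∀ t, (N ⊔ D t).FiniteIndex)
    (hHilbert : ∀ U : Subgroup Γ, U.Normal → IsOpen (U : Set Γ) → ∃ t, D t ⊔ U = ⊤)
    {R : Type*} [Finite R] (ℓ : R → ℕ) [∀ r, Fact (ℓ r).Prime] (b : R → ℕ)
    (ρ : ∀ r, Γ →* Matrix (Fin (b r)) (Fin (b r)) ℚ_[ℓ r]) (hρ : ∀ r, Continuous (ρ r))
    (hgeom : ∀ r, IsSemisimpleRep (ρ r) N) :
    List.TFAE [∀ r, ∃ t, IsSemisimpleRep (ρ r) (D t),
      ∀ r, IsSemisimpleRep (ρ r) ⊤,
      ∃ U : Subgroup Γ, U.Normal ∧ IsOpen (U : Set Γ) ∧ ∀ t, D t ⊔ U = ⊤ → ∀ r,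
        IsSemisimpleRep (ρ r) (D t) ∧ ∀ W, IsStable (ρ r) (D t) W ↔ IsStable (ρ r) ⊤ W] := by
  tfae_have 1 → 2 := by
    intro h r
    obtain ⟨t, ht⟩ := h r
    exact IsSemisimpleRep.of_normal (ρ r) N hN (D t) (hD t) (hgeom r) ht
  tfae_have 2 → 3 := by
    intro h
    choose U hUn hUo hU using fun r => exists_open (ρ r) (hρ r)
    obtain ⟨U', hn, ho, hle⟩ := finite_iInter U hUn hUo
    refine ⟨U', hn, ho, fun t ht r => ?_⟩
    have h1 := fun W => stable_of_span (ρ r) (D t)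
      (hU r (D t) (sup_eq_top_mono (hle r) ht)) W
    exact ⟨semisimple_of_span (ρ r) (D t) h1 (h r), h1⟩
  tfae_have 3 → 1 := by
    rintro ⟨U, hn, ho, h⟩ r
    obtain ⟨t, ht⟩ := hHilbert U hn ho
    exact ⟨t, (h t ht r).1⟩
  tfae_finish

end Pool.Agent.Y138.GS
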