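import Pool.Agent.Y138.GS.Ext

/-!
# Specialization of semisimplicity
-/

set_option autoImplicit false

open Module Topology Filter

namespace Pool.Agent.Y138.GS

variable {p : ℕ} [hp : Fact p.Prime] {n : Type*} [Fintype n] [DecidableEq n]
  {Γ : Type*} [Group Γ]

/-- the subspace `W` is stable under the elements of `H` -/
def IsStable (ρ : Γ →* Matrix n n ℚ_[p]) (H : Subgroup Γ) (W : Submodule ℚ_[p] (n → ℚ_[p])) :
    Prop :=
  ∀ g ∈ H, ∀ w ∈ W, (ρ g).mulVec w ∈ W

/-- the restriction of the representation `ρ` to the subgroup `H` is semisimple: every stable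
subspace has a stable complement -/
def IsSemisimpleRep (ρ : Γ →* Matrix n n ℚ_[p]) (H : Subgroup Γ) : Prop :=
  ∀ W : Submodule ℚ_[p] (n → ℚ_[p]), IsStable ρ H W →
    ∃ W' : Submodule ℚ_[p] (n → ℚ_[p]), IsStable ρ H W' ∧ IsCompl W W'

/-- the representation on the vector space -/
noncomputable def toEnd (ρ : Γ →* Matrix n n ℚ_[p]) : Γ →* End ℚ_[p] (n → ℚ_[p]) :=
  (Matrix.toLinAlgEquiv' : Matrix n n ℚ_[p] ≃ₐ[ℚ_[p]] End ℚ_[p] (n → ℚ_[p])).toAlgHom.toRingHom.toMonoidHom.comp ρ

theorem toEnd_apply (ρ : Γ →* Matrix n n ℚ_[p]) (g : Γ) (v : n → ℚ_[p]) :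
    toEnd ρ g v = (ρ g).mulVec v := rfl

theorem isSemisimpleRep_iff (ρ : Γ →* Matrix n n ℚ_[p]) (H : Subgroup Γ) :
    IsSemisimpleRep ρ H ↔ SemisimpleOn (toEnd ρ) H := Iff.rfl

/-- one closed fibre suffices -/
theorem IsSemisimpleRep.of_normal (ρ : Γ →* Matrix n n ℚ_[p]) (N : Subgroup Γ) (hN : N.Normal)
    (H : Subgroup Γ) (hfin : (N ⊔ H).FiniteIndex) (h1 : IsSemisimpleRep ρ N)
    (h2 : IsSemisimpleRep ρ H) : IsSemisimpleRep ρ ⊤ :=
  semisimple_of_normal (toEnd ρ) N hN H hfin h1 h2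

/-- subgroups which generate the same algebra -/
theorem exists_open (ρ : Γ →* Matrix n n ℚ_[p]) [TopologicalSpace Γ] [IsTopologicalGroup Γ]
    [CompactSpace Γ] [TotallyDisconnectedSpace Γ] (hρ : Continuous ρ) :
    ∃ U : Subgroup Γ, U.Normal ∧ IsOpen (U : Set Γ) ∧ ∀ H : Subgroup Γ, H ⊔ U = ⊤ →
      ∀ g : Γ, ρ g ∈ Submodule.span ℚ_[p] (ρ '' (H : Set Γ)) := by
  classical
  set A : Submodule ℚ_[p] (Matrix n n ℚ_[p]) := Submodule.span ℚ_[p] (Set.range ρ) with hA
  -- a basis of `A` consisting of images of elements of the group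
  obtain ⟨b, hbs, hbspan, hbind⟩ := exists_linearIndependent ℚ_[p] (Set.range ρ)
  have hbfin : b.Finite := hbind.setFinite
  have := hbfin.fintype
  have hb : ∀ x : b, ∃ g : Γ, ρ g = x := fun x => hbs x.2
  choose g hg using hb
  -- functionals
  have hindg : LinearIndependent ℚ_[p] fun x : b => ρ (g x) := by
    have h1 : (fun x : b => ρ (g x)) = (Subtype.val : b → Matrix n n ℚ_[p]) := funext hg
    rw [h1]
    exact hbind
  have hfun : ∃ lam : b → Module.Dual ℚ_[p] (Matrix n n ℚ_[p]),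
      (Matrix.of fun x y => lam x (ρ (g y))) = (1 : Matrix b b ℚ_[p]) := by
    have h1 : ∀ x : b, ∃ l : Matrix n n ℚ_[p] →ₗ[ℚ_[p]] ℚ_[p], l ∘ₗ
        (Submodule.span ℚ_[p] (Set.range fun x : b => ρ (g x))).subtype =
        (Finsupp.lapply x : (b →₀ ℚ_[p]) →ₗ[ℚ_[p]] ℚ_[p]) ∘ₗ
          (hindg.repr : Submodule.span ℚ_[p] (Set.range fun x : b => ρ (g x)) →ₗ[ℚ_[p]]
            (b →₀ ℚ_[p])) := fun x => LinearMap.exists_extend _
    choose lam hlam using h1
    refine ⟨lam, ?_⟩
    ext x y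
    rw [Matrix.of_apply, Matrix.one_apply]
    have h3 := LinearMap.congr_fun (hlam x) (⟨ρ (g y), Submodule.subset_span ⟨y, rfl⟩⟩ :
      Submodule.span ℚ_[p] (Set.range fun x : b => ρ (g x)))
    rw [LinearMap.comp_apply, Submodule.subtype_apply] at h3
    rw [h3]
    change (hindg.repr ⟨ρ (g y), Submodule.subset_span ⟨y, rfl⟩⟩) x = _
    rw [hindg.repr_eq_single y ⟨ρ (g y), Submodule.subset_span ⟨y, rfl⟩⟩ rfl,
      Finsupp.single_apply]
    by_cases hxy : x = y
    · subst hxy; simp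
    · rw [if_neg hxy, if_neg (fun h => hxy h.symm)]
  obtain ⟨lam, hlam⟩ := hfun
  -- the determinant
  let D : (b → Γ) → ℚ_[p] := fun u => (Matrix.of fun x y : b => lam x (ρ (g y * u y))).det
  have hDc : Continuous D := by
    apply Continuous.matrix_det
    refine continuous_matrix fun x y => ?_
    have h1 : Continuous (lam x) := LinearMap.continuous_of_finiteDimensional _
    have h2 : Continuous fun u : b → Γ => g y * u y := continuous_const.mul (continuous_apply y)
    exact h1.comp (hρ.comp h2)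
  have hD1 : D 1 ≠ 0 := by
    have h1 : D 1 = 1 := by
      change (Matrix.of fun x y : b => lam x (ρ (g y * (1 : b → Γ) y))).det = 1
      have h2 : (Matrix.of fun x y : b => lam x (ρ (g y * (1 : b → Γ) y))) =
          (Matrix.of fun x y => lam x (ρ (g y))) := by
        ext x y
        simp
      rw [h2, hlam, Matrix.det_one]
    rw [h1]
    exact one_ne_zero
  have hnb : {u : b → Γ | D u ≠ 0} ∈ 𝓝 (1 : b → Γ) :=
    (isOpen_ne_fun hDc continuous_const).mem_nhds hD1
  rw [nhds_pi, Filter.mem_pi] at hnb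
  obtain ⟨I, hI, s, hs, hsub⟩ := hnb
  have hW : (⋂ x : b, s x) ∈ 𝓝 (1 : Γ) := by
    rw [Filter.iInter_mem]
    exact fun x => hs x
  obtain ⟨U, hU⟩ := ProfiniteGrp.exist_openNormalSubgroup_sub_open_nhds_of_one
    (G := Γ) (U := interior (⋂ x : b, s x)) isOpen_interior (mem_interior_iff_mem_nhds.2 hW)
  refine ⟨U.toSubgroup, U.isNormal', U.isOpen', fun H hH => ?_⟩
  have hUn : U.toSubgroup.Normal := U.isNormal'
  -- representatives in `H`
  have hrep : ∀ x : b, ∃ u ∈ U.toSubgroup, g x * u ∈ H := by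
    intro x
    have h1 : g x ∈ H ⊔ U.toSubgroup := by rw [hH]; exact Subgroup.mem_top _
    rw [Subgroup.mem_sup_of_normal_right] at h1
    obtain ⟨h, hh, u, hu, hhu⟩ := h1
    refine ⟨u⁻¹, U.toSubgroup.inv_mem hu, ?_⟩
    rw [← hhu, mul_inv_cancel_right]
    exact hh
  choose u huU huH using hrep
  have hDu : D u ≠ 0 := by
    apply hsub
    intro x _
    have h1 : u x ∈ interior (⋂ x : b, s x) := hU (huU x)
    exact Set.mem_iInter.1 (interior_subset h1) x
  -- independence
  have hind : LinearIndependent ℚ_[p] fun x : b => ρ (g x * u x) := by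
    rw [Fintype.linearIndependent_iff]
    intro c hc
    have h1 : (Matrix.of fun x y : b => lam x (ρ (g y * u y))).mulVec c = 0 := by
      funext x
      have h2 := congrArg (lam x) hc
      rw [map_sum, map_zero] at h2
      rw [Matrix.mulVec, dotProduct, Pi.zero_apply, ← h2]
      refine Finset.sum_congr rfl fun y _ => ?_
      rw [map_smul, smul_eq_mul, Matrix.of_apply, mul_comm]
    have h2 := Matrix.eq_zero_of_mulVec_eq_zero hDu h1
    intro x
    rw [h2]
    rfl
  -- dimension count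
  have hspanA : Submodule.span ℚ_[p] (Set.range fun x : b => ρ (g x * u x)) = A := by
    apply Submodule.eq_of_le_of_finrank_eq
    · rw [Submodule.span_le]
      rintro _ ⟨x, rfl⟩
      exact Submodule.subset_span ⟨_, rfl⟩
    · rw [finrank_span_eq_card hind, hA, ← hbspan]
      exact (finrank_span_set_eq_card hbind).symm ▸ (Set.toFinset_card b).symm
  intro z
  have h1 : ρ z ∈ A := Submodule.subset_span ⟨z, rfl⟩
  rw [← hspanA] at h1
  refine Submodule.span_mono ?_ h1
  rintro _ ⟨x, rfl⟩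
  exact ⟨_, huH x, rfl⟩

/-- stable subspaces depend only on the algebra -/
theorem stable_of_span (ρ : Γ →* Matrix n n ℚ_[p]) (H : Subgroup Γ)
    (h : ∀ g : Γ, ρ g ∈ Submodule.span ℚ_[p] (ρ '' (H : Set Γ)))
    (W : Submodule ℚ_[p] (n → ℚ_[p])) : IsStable ρ H W ↔ IsStable ρ ⊤ W := by
  constructor
  · intro hW g _ w hw
    have h1 : ∀ a ∈ Submodule.span ℚ_[p] (ρ '' (H : Set Γ)), a.mulVec w ∈ W := by
      intro a ha
      induction ha using Submodule.span_induction with
      | mem x hx =>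
        obtain ⟨y, hy, rfl⟩ := hx
        exact hW y hy w hw
      | zero => rw [Matrix.zero_mulVec]; exact W.zero_mem
      | add x y _ _ hx hy => rw [Matrix.add_mulVec]; exact W.add_mem hx hy
      | smul c x _ hx => rw [Matrix.smul_mulVec]; exact W.smul_mem c hx
    exact h1 _ (h g)
  · intro hW g _ w hw
    exact hW g (Subgroup.mem_top g) w hw

theorem semisimple_of_span (ρ : Γ →* Matrix n n ℚ_[p]) (H : Subgroup Γ)
    (h : ∀ W, IsStable ρ H W ↔ IsStable ρ ⊤ W) (hss : IsSemisimpleRep ρ ⊤) :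
    IsSemisimpleRep ρ H := by
  intro W hW
  obtain ⟨W', hW', hc⟩ := hss W ((h W).1 hW)
  exact ⟨W', (h W').2 hW', hc⟩

end Pool.Agent.Y138.GS
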